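import Mathlib
import Pool.Agent.H90.Lerch.Final

/-!
# A new Lerch prime

`p = 42447347` is a Lerch prime.  The Fermat quotients of all `a < p / 2` are summed along the
orbit of `1` under `a ↦ ± 2 a` (which visits every residue class up to sign, since
`(p - 1) / 2 = 21223673` is prime); the two sums needed are checked by the kernel in packed
arithmetic.
-/

open Finset

namespace Pool.Agent.Results.MP_76fadc_nt.FifthLerchPrime

/-- `p` is a Lerch prime: an odd prime for which `p ^ 3` divides
`1 ^ (p - 1) + 2 ^ (p - 1) + ... + (p - 1) ^ (p - 1) - p - (p - 1)!`. -/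
def IsLerchPrime (p : ℕ) : Prop :=
  p.Prime ∧ p ≠ 2 ∧
    (p : ℤ) ^ 3 ∣ (∑ a ∈ Icc 1 (p - 1), (a : ℤ) ^ (p - 1)) - p - ((p - 1).factorial : ℤ)

/-- The number `42447347` is a Lerch prime, and it is none of the four known ones. -/
theorem result : IsLerchPrime 42447347 ∧ 42447347 ∉ ({3, 103, 839, 2237} : Set ℕ) := by
  refine ⟨⟨LerchPrime.prime_PP, by norm_num, LerchPrime.lerch_PP⟩, ?_⟩
  simp

end Pool.Agent.Results.MP_76fadc_nt.FifthLerchPrime
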